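import Pool.Agent.Helper2_Pak.Stmts

/-!
# PAK1, module G2: the container is closed, is covered by the cells and contains their cores
-/

set_option autoImplicit false

namespace Pool.Agent.Helper2_Pak.H27

open Pool.Agent.Helper2_Pak

/-! ### The elementary functions -/

lemma cont_bump (t : ℝ) : Continuous (bump t) := by
  unfold bump
  fun_prop

lemma cont_dent (t : ℝ) : Continuous (dent t) := by
  unfold dent
  fun_prop

lemma cont_ramp (t : ℝ) : Continuous (ramp t) := by
  unfold ramp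
  fun_prop

lemma cont_trap (t : ℝ) : Continuous (trap t) := by
  unfold trap
  fun_prop

lemma bump_bd {t : ℝ} (ht : 0 < t) (e : ℝ) : 0 ≤ bump t e ∧ bump t e ≤ t ^ 3 := by
  unfold bump
  refine ⟨le_max_left _ _, max_le (by positivity) ?_⟩
  have := abs_nonneg e
  linarith

lemma dent_bd {t : ℝ} (ht : 0 < t) (e : ℝ) : 0 ≤ dent t e ∧ dent t e ≤ 2 * t ^ 3 := by
  unfold dent
  refine ⟨le_max_left _ _, max_le (by positivity) ?_⟩
  have h1 := abs_nonneg e
  have h2 : 0 < t ^ 3 := by positivity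
  nlinarith only [h1, h2]

lemma ramp_bd {t : ℝ} (ht : 0 < t) {x : ℝ} (h0 : 0 ≤ x) (h1 : x ≤ 1) :
    0 ≤ ramp t x ∧ ramp t x ≤ 1 := by
  unfold ramp
  refine ⟨le_min zero_le_one (le_min (by positivity) ?_), min_le_left _ _⟩
  apply div_nonneg _ ht.le
  linarith

lemma trap_le (t y : ℝ) : trap t y ≤ 1 := min_le_left _ _

lemma trap_nonneg_imp {t y : ℝ} (ht : 0 < t) (h : 0 ≤ trap t y) : 0 ≤ y ∧ y ≤ 1 := by
  unfold trap at h
  have h1 : 0 ≤ 4 * y / t - 1 := h.trans ((min_le_right _ _).trans (min_le_left _ _))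
  have h2 : 0 ≤ 4 * (1 - y) / t - 1 := h.trans ((min_le_right _ _).trans (min_le_right _ _))
  have h3 : 1 * t ≤ 4 * y := by
    rw [← le_div_iff₀ ht]
    linarith
  have h4 : 1 * t ≤ 4 * (1 - y) := by
    rw [← le_div_iff₀ ht]
    linarith
  constructor <;> linarith

lemma eL_bd (σ : Bool) : 1 / 4 ≤ eL σ ∧ eL σ ≤ 3 / 4 := by
  unfold eL
  split_ifs <;> constructor <;> norm_num

lemma tipH_bd {t : ℝ} (ht : 0 < t) (ht1 : t ≤ 1 / 1000) (σ : Bool) :
    0 ≤ tipH t σ ∧ tipH t σ ≤ 1 / 2 := by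
  have h3 : 0 < t ^ 3 := by positivity
  have h4 : t ^ 3 ≤ 1 / 1000 := by
    have h2 : t ^ 2 ≤ 1 := by nlinarith only [ht, ht1]
    calc t ^ 3 = t ^ 2 * t := by ring
      _ ≤ 1 * t := mul_le_mul_of_nonneg_right h2 ht.le
      _ ≤ 1 / 1000 := by linarith
  unfold tipH
  split_ifs <;> constructor <;> linarith

/-- The spike function. -/
noncomputable def spk (t N : ℝ) (σ : Bool) (u : ℝ) : ℝ :=
  min (N + 1 + t / 4) (N + tipH t σ + (1 + t / 4 - tipH t σ) * (u / t ^ 7))

lemma cont_spk (t N : ℝ) (σ : Bool) : Continuous (spk t N σ) := by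
  unfold spk
  fun_prop

lemma spk_le (t N : ℝ) (σ : Bool) (u : ℝ) : spk t N σ u ≤ N + 1 + t / 4 := min_le_left _ _

lemma spk_nonneg {t : ℝ} (ht : 0 < t) (ht1 : t ≤ 1 / 1000) (N : ℝ) (σ : Bool) {u : ℝ}
    (hu : 0 ≤ u) : N ≤ spk t N σ u := by
  obtain ⟨h1, h2⟩ := tipH_bd ht ht1 σ
  unfold spk
  refine le_min (by linarith) ?_
  have : 0 ≤ (1 + t / 4 - tipH t σ) * (u / t ^ 7) :=
    mul_nonneg (by linarith) (div_nonneg hu (by positivity))
  linarith

lemma spk_eq {t : ℝ} (ht : 0 < t) (ht1 : t ≤ 1 / 1000) (N : ℝ) (σ : Bool) {u : ℝ}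
    (hu : t ^ 7 ≤ u) : spk t N σ u = N + 1 + t / 4 := by
  obtain ⟨h1, h2⟩ := tipH_bd ht ht1 σ
  unfold spk
  refine min_eq_left ?_
  have h3 : 1 ≤ u / t ^ 7 := by
    rw [le_div_iff₀ (by positivity)]
    linarith
  nlinarith

/-! ### Closedness -/

lemma closed_le_im {f : ℝ → ℝ} (hf : Continuous f) (c : ℝ) :
    IsClosed {z : ℂ | f (z.re - c) ≤ z.im} :=
  isClosed_le (hf.comp (Complex.continuous_re.sub continuous_const)) Complex.continuous_im

lemma closed_im_le {f : ℝ → ℝ} (hf : Continuous f) (c : ℝ) :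
    IsClosed {z : ℂ | z.im ≤ f (z.re - c)} :=
  isClosed_le Complex.continuous_im (hf.comp (Complex.continuous_re.sub continuous_const))

lemma closed_re_le (a c : ℝ) : IsClosed {z : ℂ | z.re - c ≤ a} :=
  isClosed_le (Complex.continuous_re.sub continuous_const) continuous_const

lemma closed_le_re (a c : ℝ) : IsClosed {z : ℂ | a ≤ z.re - c} :=
  isClosed_le continuous_const (Complex.continuous_re.sub continuous_const)

lemma cont_locFl (G : Lay) (t : ℝ) (c : ℕ) : Continuous (G.locFl t c) := by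
  have h1 := cont_ramp t
  have h2 := cont_dent t
  have h3 := cont_bump t
  unfold Lay.locFl
  by_cases h : (G.kd c).isW = true
  · simp only [h, if_true]
    fun_prop
  · simp only [h, Bool.false_eq_true, if_false]
    fun_prop

/-- The ceiling of the low part of a left port. -/
noncomputable def lowL (G : Lay) (t : ℝ) (x : ℝ) : ℝ := G.N + t ^ 4 * ramp t x + dent t (x - 1 / 4)

/-- The ceiling of the low part of a right port. -/
noncomputable def lowR (G : Lay) (t : ℝ) (x : ℝ) : ℝ := G.N + t ^ 4 * ramp t x + dent t (x - 3 / 4)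

/-- The ceiling of the other columns. -/
noncomputable def stdC (G : Lay) (t : ℝ) (c : ℕ) (x : ℝ) : ℝ :=
  G.top c + (G.ce t c - G.top c) * ramp t x +
    (if (G.kd c).isW then -(bump t (x - 1 / 4) + bump t (x - 3 / 4))
      else if G.spc c (G.top c - 1) then 0 else dent t (x - 1 / 4) + dent t (x - 3 / 4))

lemma locCe_L (G : Lay) (t : ℝ) (c : ℕ) (x : ℝ) (h : (G.kd c).isL = true) :
    G.locCe t c x = if x < eL (G.kd c).sig - t / 4 then lowL G t x
      else spk t G.N (G.kd c).sig (1 - x) := by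
  unfold Lay.locCe
  rw [if_pos h]
  rfl

lemma locCe_R (G : Lay) (t : ℝ) (c : ℕ) (x : ℝ) (h0 : (G.kd c).isL = false)
    (h : (G.kd c).isR = true) :
    G.locCe t c x = if x ≤ eL (G.kd c).sig + t / 4 then spk t G.N (G.kd c).sig x
      else lowR G t x := by
  unfold Lay.locCe
  rw [if_neg (by rw [h0]; simp), if_pos h]
  rfl

lemma locCe_S (G : Lay) (t : ℝ) (c : ℕ) (x : ℝ) (h0 : (G.kd c).isL = false)
    (h : (G.kd c).isR = false) : G.locCe t c x = stdC G t c x := by
  unfold Lay.locCe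
  rw [if_neg (by rw [h0]; simp), if_neg (by rw [h]; simp)]
  rfl

lemma cont_stdC (G : Lay) (t : ℝ) (c : ℕ) : Continuous (stdC G t c) := by
  have h1 := cont_ramp t
  have h2 := cont_dent t
  have h3 := cont_bump t
  unfold stdC
  by_cases h : (G.kd c).isW = true
  · simp only [h, if_true]
    fun_prop
  · simp only [h, Bool.false_eq_true, if_false]
    by_cases h' : G.spc c (G.top c - 1) = true
    · simp only [h', if_true]
      fun_prop
    · simp only [h', Bool.false_eq_true, if_false]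
      fun_prop

lemma cont_lowL (G : Lay) (t : ℝ) : Continuous (lowL G t) := by
  have h1 := cont_ramp t
  have h2 := cont_dent t
  unfold lowL
  fun_prop

lemma cont_lowR (G : Lay) (t : ℝ) : Continuous (lowR G t) := by
  have h1 := cont_ramp t
  have h2 := cont_dent t
  unfold lowR
  fun_prop

lemma pow_small {t : ℝ} (ht : 0 < t) (ht1 : t ≤ 1 / 1000) :
    t ^ 3 ≤ t / 1000 ∧ t ^ 4 ≤ t / 1000 ∧ t ^ 7 ≤ t / 1000 := by
  have h0 : t ^ 2 ≤ 1 / 1000 := by nlinarith only [ht, ht1]
  have h1 : t ^ 3 ≤ t / 1000 := by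
    calc t ^ 3 = t ^ 2 * t := by ring
      _ ≤ 1 / 1000 * t := mul_le_mul_of_nonneg_right h0 ht.le
      _ = t / 1000 := by ring
  have h2 : t ^ 4 ≤ t ^ 3 := pow_le_pow_of_le_one ht.le (by linarith) (by norm_num)
  have h3 : t ^ 7 ≤ t ^ 3 := pow_le_pow_of_le_one ht.le (by linarith) (by norm_num)
  exact ⟨h1, h2.trans h1, h3.trans h1⟩

lemma lowL_bd (G : Lay) {t : ℝ} (ht : 0 < t) (ht1 : t ≤ 1 / 1000) {x : ℝ} (h0 : 0 ≤ x)
    (h1 : x ≤ 1) : (G.N : ℝ) ≤ lowL G t x ∧ lowL G t x ≤ G.N + t / 2 := by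
  obtain ⟨r0, r1⟩ := ramp_bd ht h0 h1
  obtain ⟨d0, d1⟩ := dent_bd ht (x - 1 / 4)
  obtain ⟨p3, p4, -⟩ := pow_small ht ht1
  have h4 : 0 < t ^ 4 := by positivity
  unfold lowL
  constructor <;> nlinarith only [d0, r0, h4, d1, p3, r1, p4]

lemma lowR_bd (G : Lay) {t : ℝ} (ht : 0 < t) (ht1 : t ≤ 1 / 1000) {x : ℝ} (h0 : 0 ≤ x)
    (h1 : x ≤ 1) : (G.N : ℝ) ≤ lowR G t x ∧ lowR G t x ≤ G.N + t / 2 := by
  obtain ⟨r0, r1⟩ := ramp_bd ht h0 h1
  obtain ⟨d0, d1⟩ := dent_bd ht (x - 3 / 4)
  obtain ⟨p3, p4, -⟩ := pow_small ht ht1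
  have h4 : 0 < t ^ 4 := by positivity
  unfold lowR
  constructor <;> nlinarith only [d0, r0, h4, d1, p3, r1, p4]

lemma closed_ce (G : Lay) {t : ℝ} (ht : 0 < t) (ht1 : t ≤ 1 / 1000) (c : ℕ) :
    IsClosed {z : ℂ | z.im ≤ G.locCe t c (z.re - c)} := by
  obtain ⟨e0, e1⟩ := eL_bd (G.kd c).sig
  obtain ⟨p3, p4, p7⟩ := pow_small ht ht1
  by_cases hL : (G.kd c).isL = true
  · set x0 := eL (G.kd c).sig - t / 4 with hx0
    have hlow := (lowL_bd G ht ht1 (x := x0) (by linarith only [ht1, e0, hx0]) (by linarith only [ht, e1, hx0])).2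
    have hspk := spk_eq ht ht1 (G.N : ℝ) (G.kd c).sig (u := 1 - x0) (by linarith only [ht, e1, p7, hx0])
    have heq : {z : ℂ | z.im ≤ G.locCe t c (z.re - c)} =
        ({z : ℂ | z.re - c ≤ x0} ∩ {z : ℂ | z.im ≤ lowL G t (z.re - c)}) ∪
        ({z : ℂ | x0 ≤ z.re - c} ∩
          {z : ℂ | z.im ≤ (fun x => spk t G.N (G.kd c).sig (1 - x)) (z.re - c)}) := by
      ext z
      simp only [Set.mem_ofPred_eq, Set.mem_union, Set.mem_inter_iff]
      rw [locCe_L G t c _ hL]
      constructor
      · intro h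
        split_ifs at h with h1
        · exact Or.inl ⟨h1.le, h⟩
        · exact Or.inr ⟨not_lt.mp h1, h⟩
      · rintro (⟨h1, h2⟩ | ⟨h1, h2⟩)
        · split_ifs with h3
          · exact h2
          · have h4 : z.re - c = x0 := le_antisymm h1 (not_lt.mp h3)
            rw [h4] at h2 ⊢
            rw [hspk]
            linarith only [ht1, hlow, h2]
        · rw [if_neg (not_lt.mpr h1)]
          exact h2
    rw [heq]
    exact ((closed_re_le _ _).inter (closed_im_le (cont_lowL G t) _)).union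
      ((closed_le_re _ _).inter (closed_im_le
        ((cont_spk t G.N (G.kd c).sig).comp (continuous_const.sub continuous_id)) _))
  · have hL' : (G.kd c).isL = false := by simpa using hL
    by_cases hR : (G.kd c).isR = true
    · set x0 := eL (G.kd c).sig + t / 4 with hx0
      have hlow := (lowR_bd G ht ht1 (x := x0) (by linarith only [ht, e0, hx0]) (by linarith only [ht1, e1, hx0])).2
      have hspk := spk_eq ht ht1 (G.N : ℝ) (G.kd c).sig (u := x0) (by linarith only [ht, e0, p7, hx0])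
      have heq : {z : ℂ | z.im ≤ G.locCe t c (z.re - c)} =
          ({z : ℂ | z.re - c ≤ x0} ∩ {z : ℂ | z.im ≤ spk t G.N (G.kd c).sig (z.re - c)}) ∪
          ({z : ℂ | x0 ≤ z.re - c} ∩ {z : ℂ | z.im ≤ lowR G t (z.re - c)}) := by
        ext z
        simp only [Set.mem_ofPred_eq, Set.mem_union, Set.mem_inter_iff]
        rw [locCe_R G t c _ hL' hR]
        constructor
        · intro h
          split_ifs at h with h1
          · exact Or.inl ⟨h1, h⟩
          · exact Or.inr ⟨(not_le.mp h1).le, h⟩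
        · rintro (⟨h1, h2⟩ | ⟨h1, h2⟩)
          · rw [if_pos h1]
            exact h2
          · split_ifs with h3
            · have h4 : z.re - c = x0 := le_antisymm h3 h1
              rw [h4] at h2 ⊢
              rw [hspk]
              linarith only [ht1, hlow, h2]
            · exact h2
      rw [heq]
      exact ((closed_re_le _ _).inter (closed_im_le (cont_spk t G.N (G.kd c).sig) _)).union
        ((closed_le_re _ _).inter (closed_im_le (cont_lowR G t) _))
    · have hR' : (G.kd c).isR = false := by simpa using hR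
      have heq : {z : ℂ | z.im ≤ G.locCe t c (z.re - c)} =
          {z : ℂ | z.im ≤ stdC G t c (z.re - c)} := by
        ext z
        simp only [Set.mem_ofPred_eq]
        rw [locCe_S G t c _ hL' hR']
      rw [heq]
      exact closed_im_le (cont_stdC G t c) _

lemma closed_colReg (G : Lay) {t : ℝ} (ht : 0 < t) (ht1 : t ≤ 1 / 1000) (c : ℕ) :
    IsClosed (G.colReg t c) := by
  have h1 : IsClosed {z : ℂ | (c : ℝ) ≤ z.re} :=
    isClosed_le continuous_const Complex.continuous_re
  have h2 : IsClosed {z : ℂ | z.re ≤ (c : ℝ) + 1} :=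
    isClosed_le Complex.continuous_re continuous_const
  exact h1.inter (h2.inter ((closed_le_im (cont_locFl G t c) _).inter (closed_ce G ht ht1 c)))

lemma closed_recess (G : Lay) (t : ℝ) : IsClosed (G.recess t) := by
  have hpr : ∀ X r, G.pres X r = true → X < G.M ∧ r < G.N + 5 := by
    intro X r h
    simp only [Lay.pres, Bool.and_eq_true, decide_eq_true_eq] at h
    refine ⟨h.1, lt_of_lt_of_le h.2 ?_⟩
    unfold Lay.top
    have : (G.kd X).h ≤ 5 := by cases G.kd X <;> simp [Kind.h]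
    omega
  have heq : G.recess t = ⋃ p : Fin (G.M + 1) × Fin (G.N + 5),
      {z : ℂ | (p.2 : ℕ) % 2 = 1} ∩ ({z : ℂ | 0 ≤ trap t (z.im - (p.2 : ℕ))} ∩
      (({z : ℂ | G.wallL p.1 p.2 = true} ∩
        ({z : ℂ | ((p.1 : ℕ) : ℝ) - t ^ 3 * trap t (z.im - (p.2 : ℕ)) ≤ z.re} ∩
          {z : ℂ | z.re ≤ ((p.1 : ℕ) : ℝ)})) ∪
       ({z : ℂ | G.wallR p.1 p.2 = true} ∩ ({z : ℂ | ((p.1 : ℕ) : ℝ) ≤ z.re} ∩
        {z : ℂ | z.re ≤ ((p.1 : ℕ) : ℝ) + G.rw t p.1 p.2 * trap t (z.im - (p.2 : ℕ))})))) := by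
    ext z
    simp only [Lay.recess, Set.mem_ofPred_eq, Set.mem_iUnion, Set.mem_inter_iff, Set.mem_union]
    constructor
    · rintro ⟨X, r, h1, h2, h3⟩
      have hX : X < G.M + 1 ∧ r < G.N + 5 := by
        rcases h3 with h3 | h3
        · have h4 := h3.1
          simp only [Lay.wallL, Bool.and_eq_true] at h4
          have := hpr X r h4.1
          omega
        · have h4 := h3.1
          simp only [Lay.wallR, Bool.and_eq_true, decide_eq_true_eq] at h4
          have := hpr (X - 1) r h4.1.2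
          omega
      exact ⟨(⟨X, hX.1⟩, ⟨r, hX.2⟩), h1, h2, h3⟩
    · rintro ⟨p, h1, h2, h3⟩
      exact ⟨p.1, p.2, h1, h2, h3⟩
  rw [heq]
  refine isClosed_iUnion_of_finite fun p => ?_
  have hct : Continuous fun z : ℂ => trap t (z.im - (p.2 : ℕ)) :=
    (cont_trap t).comp (Complex.continuous_im.sub continuous_const)
  refine isClosed_const.inter ((isClosed_le continuous_const hct).inter
    ((isClosed_const.inter ((isClosed_le ?_ Complex.continuous_re).inter
      (isClosed_le Complex.continuous_re continuous_const))).union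
      (isClosed_const.inter ((isClosed_le continuous_const Complex.continuous_re).inter
        (isClosed_le Complex.continuous_re ?_)))))
  · exact continuous_const.sub (continuous_const.mul hct)
  · exact continuous_const.add (continuous_const.mul hct)

/-! ### The cells -/

lemma locFl_bd (G : Lay) {t : ℝ} (ht : 0 < t) (ht1 : t ≤ 1 / 1000) {c : ℕ}
    (hfl : |G.fl t c| ≤ t / 64) {x : ℝ} (h0 : 0 ≤ x) (h1 : x ≤ 1) :
    -(t / 2) ≤ G.locFl t c x ∧ G.locFl t c x ≤ t / 2 := by
  obtain ⟨r0, r1⟩ := ramp_bd ht h0 h1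
  obtain ⟨p3, -, -⟩ := pow_small ht ht1
  have d1 := dent_bd ht (x - 1 / 4)
  have d2 := dent_bd ht (x - 3 / 4)
  have b1 := bump_bd ht (x - 1 / 4)
  have b2 := bump_bd ht (x - 3 / 4)
  have h2 : |G.fl t c * ramp t x| ≤ t / 64 := by
    rw [abs_mul, abs_of_nonneg r0]
    have := abs_nonneg (G.fl t c)
    nlinarith only [ht, r1, hfl, r0]
  rw [abs_le] at h2
  unfold Lay.locFl
  split_ifs
  · constructor <;> linarith only [p3, h2.1, h2.2, d1.1, d1.2, d2.1, d2.2]
  · constructor <;> linarith only [p3, h2.1, h2.2, b1.1, b1.2, b2.1, b2.2]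

lemma stdC_bd (G : Lay) {t : ℝ} (ht : 0 < t) (ht1 : t ≤ 1 / 1000) {c : ℕ}
    (hce : |G.ce t c - G.top c| ≤ t / 64) {x : ℝ} (h0 : 0 ≤ x) (h1 : x ≤ 1) :
    G.top c - t / 2 ≤ stdC G t c x ∧ stdC G t c x ≤ G.top c + t / 2 := by
  obtain ⟨r0, r1⟩ := ramp_bd ht h0 h1
  obtain ⟨p3, -, -⟩ := pow_small ht ht1
  have d1 := dent_bd ht (x - 1 / 4)
  have d2 := dent_bd ht (x - 3 / 4)
  have b1 := bump_bd ht (x - 1 / 4)
  have b2 := bump_bd ht (x - 3 / 4)
  have h2 : |(G.ce t c - G.top c) * ramp t x| ≤ t / 64 := by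
    rw [abs_mul, abs_of_nonneg r0]
    have := abs_nonneg (G.ce t c - G.top c)
    nlinarith only [ht, r1, hce, r0]
  rw [abs_le] at h2
  unfold stdC
  split_ifs
  · constructor <;> linarith only [p3, h2.1, h2.2, b1.1, b1.2, b2.1, b2.2]
  · constructor <;> linarith only [h2.1, h2.2]
  · constructor <;> linarith only [p3, h2.1, h2.2, d1.1, d1.2, d2.1, d2.2]

lemma kind_L {K : Kind} (h : K.isL = true) : K = .pL K.sig := by
  cases K <;> simp_all [Kind.isL, Kind.sig]

lemma kind_R {K : Kind} (h : K.isR = true) : K = .pR K.sig := by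
  cases K <;> simp_all [Kind.isR, Kind.sig]

lemma kind_R_L {K : Kind} (h : K.isR = true) : K.isL = false := by
  cases K <;> simp_all [Kind.isR, Kind.isL]

lemma kind_h {K : Kind} (h : K.isL = true ∨ K.isR = true) : K.h = 0 := by
  cases K <;> simp_all [Kind.isR, Kind.isL, Kind.h]

/-- A height between `0` and `n` lies in a row. -/
lemma exists_row {n : ℕ} (hn : 0 < n) {t y : ℝ} (ht : 0 < t) (h0 : -t ≤ y) (h1 : y ≤ n + t) :
    ∃ r : ℕ, r < n ∧ -t ≤ y - r ∧ y - r ≤ 1 + t := by
  by_cases hy0 : y < 0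
  · exact ⟨0, hn, by simpa using h0, by rw [Nat.cast_zero]; linarith only [ht, hy0]⟩
  · push Not at hy0
    by_cases hy1 : (n : ℝ) ≤ y
    · refine ⟨n - 1, by omega, ?_, ?_⟩
      · rw [Nat.cast_sub hn, Nat.cast_one]
        linarith
      · rw [Nat.cast_sub hn, Nat.cast_one]
        linarith
    · push Not at hy1
      refine ⟨⌊y⌋₊, ?_, ?_, ?_⟩
      · rw [Nat.floor_lt hy0]
        exact hy1
      · have := Nat.floor_le hy0
        linarith
      · have := Nat.lt_floor_add_one y
        linarith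

theorem g2 (hG1 : G1Stmt) : G2Stmt := by
  intro t G hOK hS
  have ht : 0 < t := hS.pos
  obtain ⟨ht120, -, -, hD, hfc, -⟩ := hG1 t G hOK hS
  have ht1 : t ≤ 1 / 1000 := ht120.trans (by norm_num)
  obtain ⟨p3, p4, p7⟩ := pow_small ht ht1
  have htop0 : ∀ c, 0 < G.top c := by
    intro c
    unfold Lay.top Lay.N
    omega
  have htopN : ∀ c, ((G.kd c).isL = true ∨ (G.kd c).isR = true) → G.top c = G.N := by
    intro c hc
    unfold Lay.top
    rw [kind_h hc, add_zero]
  refine ⟨?_, ?_, ?_, ?_⟩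
  · exact (isClosed_iUnion_of_finite fun c : Fin G.M => closed_colReg G ht ht1 c).union
      (closed_recess G t)
  · -- the cover
    rintro z (hz | hz)
    · obtain ⟨⟨c, hc⟩, hz⟩ := Set.mem_iUnion.mp hz
      obtain ⟨x0, x1, hfl, hce⟩ := hz
      simp only at x0 x1 hfl hce
      obtain ⟨f1, f2⟩ := hfc c hc
      have hx0 : 0 ≤ z.re - c := by linarith only [x0]
      have hx1 : z.re - c ≤ 1 := by linarith only [x1]
      have hlo := (locFl_bd G ht ht1 f1 hx0 hx1).1
      have hlow : z.im ≤ G.top c + t → ∃ i : Cell G, -t ≤ (z - corner i).re ∧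
          (z - corner i).re ≤ 1 + t ∧ -t ≤ (z - corner i).im ∧ (z - corner i).im ≤ 1 + t := by
        intro him
        obtain ⟨r, hr, h1, h2⟩ := exists_row (htop0 c) ht (y := z.im) (by linarith only [ht, hfl, hlo]) him
        refine ⟨Sum.inl ⟨⟨c, hc⟩, ⟨r, hr⟩⟩, ?_⟩
        simp only [corner, Complex.sub_re, Complex.sub_im]
        refine ⟨?_, ?_, ?_, ?_⟩ <;> linarith only [ht, x0, x1, h1, h2]
      by_cases hhigh : z.im ≤ G.top c + t
      · exact hlow hhigh
      · push Not at hhigh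
        by_cases hL : (G.kd c).isL = true
        · rw [locCe_L G t c _ hL] at hce
          rw [htopN c (Or.inl hL)] at hhigh
          split_ifs at hce with hlt
          · have := (lowL_bd G ht ht1 hx0 hx1).2
            linarith only [ht, hhigh, hce, this]
          · push Not at hlt
            have h3 := spk_le t G.N (G.kd c).sig (1 - (z.re - c))
            obtain ⟨e0, e1⟩ := eL_bd (G.kd c).sig
            refine ⟨Sum.inr ⟨⟨c, hc⟩, hL⟩, ?_⟩
            simp only [corner, Complex.sub_re, Complex.sub_im]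
            refine ⟨?_, ?_, ?_, ?_⟩ <;> linarith only [ht, hlt, x1, e0, hhigh, hce, h3]
        · have hL' : (G.kd c).isL = false := by simpa using hL
          by_cases hR : (G.kd c).isR = true
          · rw [locCe_R G t c _ hL' hR] at hce
            rw [htopN c (Or.inr hR)] at hhigh
            split_ifs at hce with hlt
            · have h3 := spk_le t G.N (G.kd c).sig (z.re - c)
              obtain ⟨e0, e1⟩ := eL_bd (G.kd c).sig
              obtain ⟨q1, q2, -⟩ := hOK.portR c (G.kd c).sig hc (kind_R hR)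
              have hc1 : c - 1 < G.M := by omega
              have hL1 : (G.kd (c - 1)).isL = true := by rw [q2]; rfl
              have hsig : (G.kd (c - 1)).sig = (G.kd c).sig := by rw [q2]; rfl
              refine ⟨Sum.inr ⟨⟨c - 1, hc1⟩, hL1⟩, ?_⟩
              simp only [corner, Complex.sub_re, Complex.sub_im]
              rw [hsig, Nat.cast_sub q1, Nat.cast_one]
              refine ⟨?_, ?_, ?_, ?_⟩ <;> linarith only [ht, x0, e1, hlt, hhigh, hce, h3]
            · have := (lowR_bd G ht ht1 hx0 hx1).2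
              linarith only [ht, hhigh, hce, this]
          · have hR' : (G.kd c).isR = false := by simpa using hR
            rw [locCe_S G t c _ hL' hR'] at hce
            have := (stdC_bd G ht ht1 f2 hx0 hx1).2
            linarith only [ht, hce, hhigh, this]
    · obtain ⟨X, r, hr, htr, hw⟩ := hz
      obtain ⟨y0, y1⟩ := trap_nonneg_imp ht htr
      have htr1 := trap_le t (z.im - r)
      rcases hw with ⟨h1, h2, h3⟩ | ⟨h1, h2, h3⟩
      · simp only [Lay.wallL, Lay.pres, Bool.and_eq_true, decide_eq_true_eq] at h1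
        refine ⟨Sum.inl ⟨⟨X, h1.1.1⟩, ⟨r, h1.1.2⟩⟩, ?_⟩
        simp only [corner, Complex.sub_re, Complex.sub_im]
        have h4 : t ^ 3 * trap t (z.im - r) ≤ t ^ 3 :=
          mul_le_of_le_one_right (by positivity) htr1
        refine ⟨?_, ?_, ?_, ?_⟩ <;> linarith only [ht, p3, h2, h4, h3, y0, y1]
      · simp only [Lay.wallR, Lay.pres, Bool.and_eq_true, decide_eq_true_eq] at h1
        obtain ⟨⟨hX, hX1, hX2⟩, -⟩ := h1
        refine ⟨Sum.inl ⟨⟨X - 1, hX1⟩, ⟨r, hX2⟩⟩, ?_⟩
        simp only [corner, Complex.sub_re, Complex.sub_im]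
        obtain ⟨-, -, w1, w2⟩ := hD X r
        have h4 : G.rw t X r * trap t (z.im - r) ≤ G.rw t X r :=
          mul_le_of_le_one_right w2.le htr1
        rw [Nat.cast_sub hX, Nat.cast_one]
        refine ⟨?_, ?_, ?_, ?_⟩ <;> linarith only [h2, w1, w2, h3, h4, y0, y1]
  · -- the cores of the cells
    intro c r z hp h1 h2 h3 h4
    have hc : c < G.M ∧ r < G.top c := by simpa [Lay.pres] using hp
    obtain ⟨f1, f2⟩ := hfc c hc.1
    have hx0 : 0 ≤ z.re - c := by linarith only [ht, h1]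
    have hx1 : z.re - c ≤ 1 := by linarith
    have hlo := (locFl_bd G ht ht1 f1 hx0 hx1).2
    have hr0 : (0 : ℝ) ≤ r := Nat.cast_nonneg r
    have hrt : (r : ℝ) + 1 ≤ G.top c := by exact_mod_cast hc.2
    refine Or.inl (Set.mem_iUnion.mpr ⟨⟨c, hc.1⟩, ?_⟩)
    refine ⟨by simp only; linarith only [ht, h1], by simp only; linarith only [ht, h2], by simp only; linarith only [ht, h3, hlo], ?_⟩
    simp only
    by_cases hL : (G.kd c).isL = true
    · rw [locCe_L G t c _ hL]
      rw [htopN c (Or.inl hL)] at hrt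
      split_ifs
      · have := (lowL_bd G ht ht1 hx0 hx1).1
        linarith only [ht, h4, hrt, this]
      · have := spk_nonneg ht ht1 (G.N : ℝ) (G.kd c).sig (u := 1 - (z.re - c)) (by linarith only [ht, h2])
        linarith only [ht, h4, hrt, this]
    · have hL' : (G.kd c).isL = false := by simpa using hL
      by_cases hR : (G.kd c).isR = true
      · rw [locCe_R G t c _ hL' hR]
        rw [htopN c (Or.inr hR)] at hrt
        split_ifs
        · have := spk_nonneg ht ht1 (G.N : ℝ) (G.kd c).sig (u := z.re - c) (by linarith only [ht, h1])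
          linarith only [ht, h4, hrt, this]
        · have := (lowR_bd G ht ht1 hx0 hx1).1
          linarith only [ht, h4, hrt, this]
      · have hR' : (G.kd c).isR = false := by simpa using hR
        rw [locCe_S G t c _ hL' hR']
        have := (stdC_bd G ht ht1 f2 hx0 hx1).1
        linarith only [ht, h4, hrt, this]
  · -- the core of a room
    intro c z hc hL h1 h2 h3 h4 h5
    obtain ⟨e0, e1⟩ := eL_bd (G.kd c).sig
    have hN0 : (0 : ℝ) ≤ G.N := Nat.cast_nonneg _
    by_cases hre : z.re ≤ c + 1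
    · rw [abs_of_nonpos (by linarith only [hre])] at h5
      have hx0 : 0 ≤ z.re - c := by linarith only [ht, h1, e0]
      have hx1 : z.re - c ≤ 1 := by linarith only [hre]
      have hlo := (locFl_bd G ht ht1 (hfc c hc).1 hx0 hx1).2
      refine Or.inl (Set.mem_iUnion.mpr ⟨⟨c, hc⟩, ?_⟩)
      refine ⟨by simp only; linarith only [ht, h1, e0], by simp only; linarith only [hre], by simp only; linarith only [ht, h3, hlo], ?_⟩
      simp only
      rw [locCe_L G t c _ hL, if_neg (by push Not; linarith only [ht, h1]),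
        spk_eq ht ht1 (G.N : ℝ) (G.kd c).sig (by linarith only [h5])]
      linarith only [ht, h4]
    · push Not at hre
      rw [abs_of_pos (by linarith only [hre])] at h5
      obtain ⟨q1, q2⟩ := hOK.portL c (G.kd c).sig hc (kind_L hL)
      have hR1 : (G.kd (c + 1)).isR = true := by rw [q2]; rfl
      have hsig : (G.kd (c + 1)).sig = (G.kd c).sig := by rw [q2]; rfl
      have hcast : ((c + 1 : ℕ) : ℝ) = c + 1 := by push_cast; ring
      have hx0 : 0 ≤ z.re - ((c + 1 : ℕ) : ℝ) := by rw [hcast]; linarith only [hre]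
      have hx1 : z.re - ((c + 1 : ℕ) : ℝ) ≤ 1 := by rw [hcast]; linarith only [ht, h2, e1]
      have hlo := (locFl_bd G ht ht1 (hfc (c + 1) q1).1 hx0 hx1).2
      refine Or.inl (Set.mem_iUnion.mpr ⟨⟨c + 1, q1⟩, ?_⟩)
      refine ⟨by simp only; linarith only [hre, hcast], by simp only; linarith only [ht, h2, e1, hcast], by simp only; linarith only [ht, h3, hlo], ?_⟩
      simp only
      rw [locCe_R G t (c + 1) _ (kind_R_L hR1) hR1, hsig, if_pos (by rw [hcast]; linarith only [ht, h2]),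
        spk_eq ht ht1 (G.N : ℝ) (G.kd c).sig (by rw [hcast]; linarith only [h5])]
      linarith only [ht, h4]

end Pool.Agent.Helper2_Pak.H27
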