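import Pool.Agent.Helper2_Pak.Stmts

/-!
# PAK1, module R2: the columns
-/

set_option autoImplicit false

namespace Pool.Agent.Helper2_Pak.H27

open Pool.Agent.Helper2_Pack (Motion)
open Pool.Agent.Helper2_Pak

lemma nearK_mono {e e' : ℝ} {a : ℂ} {k : ℕ} {g : Motion} (h : NearK e a k g) (he : e ≤ e') :
    NearK e' a k g :=
  ⟨h.1, h.2.1.trans he, h.2.2.1.trans he, h.2.2.2.trans he⟩

lemma rot_near {e : ℝ} {a : ℂ} {k : ℕ} {g : Motion} (h : NearK e a k g) :
    1 - e ≤ (rot g k).re ∧ (rot g k).re ≤ 1 ∧ |(rot g k).im| ≤ e := by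
  have h1 : Complex.I ^ k * (-Complex.I) ^ k = 1 := by
    rw [← mul_pow]
    simp
  have h2 : ‖(-Complex.I) ^ k‖ = 1 := by simp
  have h3 : ‖rot g k - 1‖ ≤ e := by
    have h4 : rot g k - 1 = (g.u - Complex.I ^ k) * (-Complex.I) ^ k := by
      rw [sub_mul, h1]
      rfl
    rw [h4, norm_mul, h2, mul_one]
    exact h.2.2.2
  have h5 : ‖rot g k‖ = 1 := by
    unfold rot
    rw [norm_mul, h2, g.unit, mul_one]
  have h6 : |(rot g k - 1).re| ≤ e := (Complex.abs_re_le_norm _).trans h3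
  have h7 : |(rot g k - 1).im| ≤ e := (Complex.abs_im_le_norm _).trans h3
  rw [Complex.sub_re, Complex.one_re] at h6
  rw [Complex.sub_im, Complex.one_im, sub_zero] at h7
  refine ⟨?_, ?_, h7⟩
  · have := (abs_le.mp h6).1
    linarith
  · exact (Complex.re_le_norm _).trans h5.le

lemma HY_bd {t : ℝ} (ht : 0 < t) (ht1 : t ≤ 1 / 2 ^ 60) (k : ℕ) :
    1 / 2 ≤ HY t k ∧ HY t k ≤ 1 / 2 + 1 / 1000 := by
  have h1 : t ^ 2 ≤ 1 / 1000 := by
    have h2 : t ≤ 1 / 1000 := ht1.trans (by norm_num)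
    nlinarith only [ht, ht1]
  have h3 : 0 ≤ t ^ 2 := sq_nonneg t
  unfold HY hh
  split_ifs
  · constructor <;> linarith
  · constructor <;> norm_num

/-- The lines of the top and bottom sides are near the sides of the cell. -/
lemma lines_near {t : ℝ} (ht : 0 < t) (ht1 : t ≤ 1 / 2 ^ 60) {a : ℂ} {k : ℕ} {g : Motion}
    (h : NearK (1 / 512) a k g) {x : ℝ} (hx : |x - (a.re + 1 / 2)| ≤ 1 / 2) :
    |btL t g k x - a.im| ≤ 1 / 50 ∧ |tpL t g k x - (a.im + 1)| ≤ 1 / 50 := by
  obtain ⟨c1, c2, s1⟩ := rot_near h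
  obtain ⟨H1, H2⟩ := HY_bd ht ht1 k
  have hvr := h.2.1
  have hvi := h.2.2.1
  rw [Complex.sub_re] at hvr
  rw [Complex.sub_im] at hvi
  set c := (rot g k).re with hc
  set s := (rot g k).im with hs
  have hc0 : 0 < c := by linarith only [c1]
  -- HY / c
  have h1 : HY t k / c ≤ 1 / 2 + 1 / 200 := by
    rw [div_le_iff₀ hc0]
    linarith only [H2, c1]
  have h2 : 1 / 2 ≤ HY t k / c := by
    rw [le_div_iff₀ hc0]
    linarith only [H1, c2]
  -- slope
  have h3 : |s / c| ≤ 1 / 500 := by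
    rw [abs_div, abs_of_pos hc0, div_le_iff₀ hc0]
    linarith only [c1, s1]
  have h4 : |x - g.v.re| ≤ 1 := by
    rw [abs_le] at *
    constructor <;> linarith only [hx.1, hx.2, hvr.1, hvr.2]
  have h5 : |s / c * (x - g.v.re)| ≤ 1 / 500 := by
    rw [abs_mul]
    nlinarith only [h4, h3, abs_nonneg (s / c), abs_nonneg (x - g.v.re)]
  rw [abs_le] at h5 hvi
  unfold btL tpL
  rw [← hc, ← hs]
  constructor
  · rw [abs_le]
    constructor <;> linarith only [h1, h2, h5.1, h5.2, hvi.1, hvi.2]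
  · rw [abs_le]
    constructor <;> linarith only [h2, h1, h5.1, h5.2, hvi.1, hvi.2]

lemma btL_affine (t : ℝ) (g : Motion) (k : ℕ) (m x₁ x₂ : ℝ) :
    btL t g k ((1 - m) * x₁ + m * x₂) = (1 - m) * btL t g k x₁ + m * btL t g k x₂ := by
  unfold btL
  ring

lemma tpL_affine (t : ℝ) (g : Motion) (k : ℕ) (m x₁ x₂ : ℝ) :
    tpL t g k ((1 - m) * x₁ + m * x₂) = (1 - m) * tpL t g k x₁ + m * tpL t g k x₂ := by
  unfold tpL
  ring

lemma isL_isR (K : Kind) : K.isL = true → K.isR = false := by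
  cases K <;> simp [Kind.isL, Kind.isR]

lemma isW_isL (K : Kind) : K.isW = true → K.isL = false ∧ K.isR = false := by
  cases K <;> simp [Kind.isL, Kind.isR, Kind.isW]

theorem r2 (hF2 : F2Stmt) (hF3 : F3Stmt) (hF7 : F7Stmt) (hG3 : G3Stmt) (hG4 : G4Stmt) :
    R2Stmt := by
  intro t G g k L kL hOK hS hA c hc
  have ht0 : 0 < t := hS.pos
  have ht1 : t ≤ 1 / 2 ^ 60 := by
    have h1 : (2 : ℝ) ^ 60 ≤ 2 ^ (32 * G.K + 120) := by
      apply pow_le_pow_right₀ (by norm_num)
      omega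
    have h2 : t * 2 ^ 60 ≤ 1 := by
      calc t * 2 ^ 60 ≤ t * 2 ^ (32 * G.K + 120) := mul_le_mul_of_nonneg_left h1 ht0.le
        _ ≤ 1 := hS.small
    rw [le_div_iff₀ (by positivity)]
    exact h2
  have htop : 0 < G.top c := by
    unfold Lay.top Lay.N
    omega
  have hpres : ∀ r, r < G.top c → G.pres c r = true := by
    intro r hr
    simp [Lay.pres, hc, hr]
  have hnear : ∀ r, r < G.top c → NearK (1 / 512) (⟨c, r⟩ : ℂ) (k c r) (g c r) := fun r hr =>
    nearK_mono (hA.near c r (hpres r hr)) (by norm_num)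
  -- the abscissa of the chord
  obtain ⟨l, hl, hlR, hch⟩ : ∃ l : ℝ, |l| = 1 / 8 ∧
      (((G.kd c).isR = true ∧ l = 1 / 8) ∨ ((G.kd c).isR = false ∧ l = -1 / 8)) ∧
      chX G c = c + 1 / 2 + l := by
    unfold chX
    by_cases h : (G.kd c).isR = true
    · refine ⟨1 / 8, by rw [abs_of_pos] <;> norm_num, Or.inl ⟨h, rfl⟩, ?_⟩
      rw [if_pos h]
    · refine ⟨-1 / 8, by rw [abs_of_neg] <;> norm_num, Or.inr ⟨by simpa using h, rfl⟩, ?_⟩
      rw [if_neg h]
  have hl' : l = 1 / 8 ∨ l = -1 / 8 := by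
    rcases hlR with h | h
    · exact Or.inl h.2
    · exact Or.inr h.2
  have hchx : |chX G c - (((c : ℝ) : ℝ) + 1 / 2 + l)| ≤ 1 / 64 := by
    rw [hch, sub_self, abs_zero]
    norm_num
  -- combination of the abscissas
  obtain ⟨m, hm0, hm1, hm⟩ : ∃ m : ℝ, 0 ≤ m ∧ m ≤ 1 ∧
      chX G c = (1 - m) * ((c : ℝ) + 1 / 4) + m * ((c : ℝ) + 3 / 4) := by
    refine ⟨(1 / 4 + l) * 2, ?_, ?_, ?_⟩
    · rcases hl' with h | h <;> rw [h] <;> norm_num
    · rcases hl' with h | h <;> rw [h] <;> norm_num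
    · rw [hch]
      ring
  refine ⟨?_, ?_, ?_, ?_⟩
  · -- tiles above each other
    intro r hr
    have h1 := hnear r (by omega)
    have h2 := hnear (r + 1) hr
    have h3 : (⟨c, r⟩ : ℂ) + Complex.I = (⟨c, ((r + 1 : ℕ) : ℝ)⟩ : ℂ) := by
      apply Complex.ext <;> simp
    have h4 := hF7 t (g c r) (g c (r + 1)) ⟨c, r⟩ (k c r) (k c (r + 1)) l (chX G c) ht0 ht1 h1
      (by rw [h3]; exact h2) hchx
      (hA.disj c r c (r + 1) (hpres r (by omega)) (hpres (r + 1) hr) (Or.inr (by omega)))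
    exact h4.2 (Or.inr hl)
  · -- the floor
    have hn := hnear 0 htop
    have hsub := hA.sub c 0 (hpres 0 htop)
    have hfl : G.fl t c ≤ btL t (g c 0) (k c 0) (chX G c) := by
      refine le_of_forall_pos_le_add fun ε hε => ?_
      set y := btL t (g c 0) (k c 0) (chX G c) + min ε (1 / 8) with hy
      have hmin : 0 < min ε (1 / 8) := lt_min hε (by norm_num)
      have hz := hF3 t (g c 0) ⟨c, ((0 : ℕ) : ℝ)⟩ (k c 0) l (chX G c) y ht0 ht1 hn
        (Or.inr (Or.inl hl)) hchx (by linarith only [hmin])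
        (by have := min_le_right ε (1 / 8 : ℝ); linarith only [this])
      have hzc := hsub (interior_subset hz)
      have h5 := (hG3 t G c l hOK hS hc _ hzc hchx).1 (Or.inr (Or.inl hl))
      have h6 : G.fl t c ≤ y := h5
      have := min_le_left ε (1 / 8 : ℝ)
      linarith only [h5, this]
    by_cases hb : (!(G.kd c).isW && decide (2 ≤ k c 0)) = true
    · rw [hb]
      simp only [Bool.and_eq_true, Bool.not_eq_true', decide_eq_true_eq] at hb
      obtain ⟨hW, hk⟩ := hb
      obtain ⟨a1, a2⟩ := (hG4 t G c hOK hS hc).1 hW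
      have hint : interior (tile t (g c 0)) ⊆ interior (G.cont t) := interior_mono hsub
      have ht3 : t ^ 3 ≤ 1 / 1000 := by
        have h2 : t ≤ 1 / 1000 := ht1.trans (by norm_num)
        have h3 : t ^ 2 ≤ 1 := by nlinarith only [ht0, ht1]
        calc t ^ 3 = t ^ 2 * t := by ring
          _ ≤ 1 * t := mul_le_mul_of_nonneg_right h3 ht0.le
          _ ≤ 1 / 1000 := by linarith only [ht1]
      have hch0 := (lines_near ht0 ht1 hn (x := chX G c) (by
        rw [hch]
        show |((c : ℝ) + 1 / 2 + l) - ((c : ℝ) + 1 / 2)| ≤ 1 / 2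
        rw [add_sub_cancel_left, hl]; norm_num)).1
      have key : ∀ l' : ℝ, |l'| = 1 / 4 →
          (⟨c + 1 / 2 + l', G.fl t c + t ^ 3⟩ : ℂ) ∉ interior (G.cont t) →
          G.fl t c + t ^ 3 ≤ btL t (g c 0) (k c 0) (c + 1 / 2 + l') := by
        intro l' hl'' hnot
        by_contra hcon
        push Not at hcon
        apply hnot
        apply hint
        refine hF3 t (g c 0) ⟨c, ((0 : ℕ) : ℝ)⟩ (k c 0) l' _ _ ht0 ht1 hn
          (Or.inr (Or.inr (Or.inr ⟨hl'', hk⟩))) ?_ hcon ?_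
        · show |((c : ℝ) + 1 / 2 + l') - ((c : ℝ) + 1 / 2 + l')| ≤ 1 / 64
          rw [sub_self, abs_zero]
          norm_num
        · have h7 := (lines_near ht0 ht1 hn (x := c + 1 / 2 + l') (by
            show |((c : ℝ) + 1 / 2 + l') - ((c : ℝ) + 1 / 2)| ≤ 1 / 2
            rw [add_sub_cancel_left, hl'']; norm_num)).1
          have h8 := (abs_le.mp h7).1
          have h9 := (abs_le.mp hch0).2
          simp only [Nat.cast_zero] at h8 h9
          linarith only [hfl, ht3, h8, h9]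
      have e1 : (c : ℝ) + 1 / 4 = c + 1 / 2 + (-1 / 4) := by ring
      have e2 : (c : ℝ) + 3 / 4 = c + 1 / 2 + 1 / 4 := by ring
      have k1 := key (-1 / 4) (by rw [abs_of_neg] <;> norm_num) (by rw [← e1]; exact a1)
      have k2 := key (1 / 4) (by rw [abs_of_pos] <;> norm_num) (by rw [← e2]; exact a2)
      rw [← e1] at k1
      rw [← e2] at k2
      rw [hm, btL_affine]
      simp only [pq, if_true]
      nlinarith only [hm0, k2, hm1, k1]
    · have hb' : (!(G.kd c).isW && decide (2 ≤ k c 0)) = false := by simpa using hb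
      rw [hb']
      simp only [pq, Bool.false_eq_true, if_false, add_zero]
      exact hfl
  · -- the ceiling
    set r := G.top c - 1 with hr
    have hrt : r < G.top c := by omega
    have hn := hnear r hrt
    have hsub := hA.sub c r (hpres r hrt)
    have hce : tpL t (g c r) (k c r) (chX G c) ≤ G.ce t c := by
      refine le_of_forall_pos_le_add fun ε hε => ?_
      set y := tpL t (g c r) (k c r) (chX G c) - min ε (1 / 8) with hy
      have hmin : 0 < min ε (1 / 8) := lt_min hε (by norm_num)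
      have hz := hF2 t (g c r) ⟨c, r⟩ (k c r) l (chX G c) y ht0 ht1 hn
        (Or.inr (Or.inl hl)) hchx
        (by have := min_le_right ε (1 / 8 : ℝ); linarith only [this]) (by linarith only [hmin])
      have hzc := hsub (interior_subset hz)
      obtain ⟨-, h5, h6, h7⟩ := hG3 t G c l hOK hS hc _ hzc hchx
      have h8 : y ≤ G.ce t c := by
        rcases hlR with ⟨hR, hlr⟩ | ⟨hR, hlr⟩
        · exact h7 hR hlr
        · by_cases hL : (G.kd c).isL = true
          · exact h6 hL hlr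
          · exact h5 (by simpa using hL) hR (Or.inr (Or.inl hl))
      have := min_le_left ε (1 / 8 : ℝ)
      linarith only [h8, this]
    by_cases hb : ((G.kd c).isW && decide (k c r ≤ 1)) = true
    · rw [hb]
      simp only [Bool.and_eq_true, decide_eq_true_eq] at hb
      obtain ⟨hW, hk⟩ := hb
      obtain ⟨a1, a2⟩ := (hG4 t G c hOK hS hc).2.1 hW
      have hint : interior (tile t (g c r)) ⊆ interior (G.cont t) := interior_mono hsub
      have ht3 : t ^ 3 ≤ 1 / 1000 := by
        have h2 : t ≤ 1 / 1000 := ht1.trans (by norm_num)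
        have h3 : t ^ 2 ≤ 1 := by nlinarith only [ht0, ht1]
        calc t ^ 3 = t ^ 2 * t := by ring
          _ ≤ 1 * t := mul_le_mul_of_nonneg_right h3 ht0.le
          _ ≤ 1 / 1000 := by linarith only [ht1]
      have hch0 := (lines_near ht0 ht1 hn (x := chX G c) (by
        rw [hch]
        show |((c : ℝ) + 1 / 2 + l) - ((c : ℝ) + 1 / 2)| ≤ 1 / 2
        rw [add_sub_cancel_left, hl]; norm_num)).2
      have key : ∀ l' : ℝ, |l'| = 1 / 4 →
          (⟨c + 1 / 2 + l', G.ce t c - t ^ 3⟩ : ℂ) ∉ interior (G.cont t) →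
          tpL t (g c r) (k c r) (c + 1 / 2 + l') ≤ G.ce t c - t ^ 3 := by
        intro l' hl'' hnot
        by_contra hcon
        push Not at hcon
        apply hnot
        apply hint
        refine hF2 t (g c r) ⟨c, r⟩ (k c r) l' _ _ ht0 ht1 hn
          (Or.inr (Or.inr (Or.inr ⟨hl'', hk⟩))) ?_ ?_ hcon
        · show |((c : ℝ) + 1 / 2 + l') - ((c : ℝ) + 1 / 2 + l')| ≤ 1 / 64
          rw [sub_self, abs_zero]
          norm_num
        · have h7 := (lines_near ht0 ht1 hn (x := c + 1 / 2 + l') (by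
            show |((c : ℝ) + 1 / 2 + l') - ((c : ℝ) + 1 / 2)| ≤ 1 / 2
            rw [add_sub_cancel_left, hl'']; norm_num)).2
          have h8 := (abs_le.mp h7).2
          have h9 := (abs_le.mp hch0).1
          linarith only [hce, ht3, h8, h9]
      have e1 : (c : ℝ) + 1 / 4 = c + 1 / 2 + (-1 / 4) := by ring
      have e2 : (c : ℝ) + 3 / 4 = c + 1 / 2 + 1 / 4 := by ring
      have k1 := key (-1 / 4) (by rw [abs_of_neg] <;> norm_num) (by rw [← e1]; exact a1)
      have k2 := key (1 / 4) (by rw [abs_of_pos] <;> norm_num) (by rw [← e2]; exact a2)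
      rw [← e1] at k1
      rw [← e2] at k2
      rw [hm, tpL_affine]
      simp only [pq, if_true]
      nlinarith only [hm0, k2, hm1, k1]
    · have hb' : ((G.kd c).isW && decide (k c r ≤ 1)) = false := by simpa using hb
      rw [hb']
      simp only [pq, Bool.false_eq_true, if_false, add_zero]
      exact hce
  · -- the height of a tile
    intro r hr
    obtain ⟨c1, c2, -⟩ := rot_near (hnear r hr)
    obtain ⟨H1, -⟩ := HY_bd ht0 ht1 (k c r)
    unfold btL tpL
    have hc0 : 0 < (rot (g c r) (k c r)).re := by linarith only [c1]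
    have h1 : HY t (k c r) ≤ HY t (k c r) / (rot (g c r) (k c r)).re := by
      rw [le_div_iff₀ hc0]
      nlinarith only [c2, H1]
    linarith only [h1]

end Pool.Agent.Helper2_Pak.H27
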