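import Pool.Agent.Helper2_Pak.Stmts

/-!
# PAK1, module R5: the orientations
-/

set_option autoImplicit false

namespace Pool.Agent.Helper2_Pak.H27

open Pool.Agent.Helper2_Pack (Motion)
open Pool.Agent.Helper2_Pak

/-- Special tiles are in odd rows. -/
lemma spc_odd (G : Lay) (c r : ℕ) (h : G.spc c r = true) : r % 2 = 1 := by
  unfold Lay.spc at h
  split_ifs at h with h1
  · simp only [Bool.and_eq_true, decide_eq_true_eq] at h
    exact h.1
  · have h2 : (r - 2 * G.n) % 2 = 1 := by
      revert h
      cases G.kd c <;> simp only [Kind.sp, decide_eq_true_eq] <;>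
        first
          | (intro h; omega)
          | (intro h; exact absurd h (by simp))
    have h3 : G.N ≤ r := not_lt.mp h1
    unfold Lay.N at h3
    omega

/-- The number of cells of a column. -/
lemma top_le_K (G : Lay) {c : ℕ} (hc : c < G.M) : G.top c ≤ G.K := by
  classical
  let f : Fin (G.top c) → Cell G := fun r => Sum.inl ⟨⟨c, hc⟩, r⟩
  have hf : Function.Injective f := by
    intro r r' h
    simpa [f] using h
  have := Fintype.card_le_of_injective f hf
  simpa [Lay.K] using this

lemma pq_nonneg {t : ℝ} (ht : 0 < t) (b : Bool) : 0 ≤ pq t b := by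
  unfold pq
  split_ifs <;> positivity

lemma pq_lt {t : ℝ} {b : Bool} (h : pq t b < t ^ 3) : b = false := by
  cases b
  · rfl
  · simp [pq] at h

theorem r5 (hR2 : R2Stmt) (hR4 : R4Stmt) (hG1 : G1Stmt) : R5Stmt := by
  intro t G g k L kL hOK hS hA
  have ht0 : 0 < t := hS.pos
  obtain ⟨ht1, hKt, -, hD, -, -⟩ := hG1 t G hOK hS
  have hk4 : ∀ c r, G.pres c r = true → k c r < 4 := fun c r h => (hA.near c r h).1
  -- the penalties of a column vanish
  have hmain : ∀ c, c < G.M →
      (!(G.kd c).isW && decide (2 ≤ k c 0)) = false ∧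
      (∀ r, r + 1 < G.top c → penV (k c r) (k c (r + 1)) = false) ∧
      ((G.kd c).isW && decide (k c (G.top c - 1) ≤ 1)) = false := by
    intro c hc
    obtain ⟨a1, a2, a3, a4⟩ := hR2 t G g k L kL hOK hS hA c hc
    have htop : 0 < G.top c := by
      unfold Lay.top Lay.N
      omega
    have hpres : ∀ r, r < G.top c → G.pres c r = true := by
      intro r hr
      simp [Lay.pres, hc, hr]
    set b0 := (!(G.kd c).isW && decide (2 ≤ k c 0)) with hb0
    set b1 := ((G.kd c).isW && decide (k c (G.top c - 1) ≤ 1)) with hb1
    set pv : ℕ → ℝ := fun r => pq t (penV (k c r) (k c (r + 1))) with hpv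
    have hpv0 : ∀ r, 0 ≤ pv r := fun r => pq_nonneg ht0 _
    -- the chain
    have hch : ∀ r, r < G.top c →
        G.fl t c + pq t b0 + ∑ j ∈ Finset.range r, (2 * HY t (k c j) + pv j) ≤
          btL t (g c r) (k c r) (chX G c) := by
      intro r
      induction r with
      | zero =>
        intro _
        simpa using a2
      | succ r ih =>
        intro hr
        have h1 := ih (by omega)
        have h2 := a4 r (by omega)
        have h3 := a1 r hr
        rw [Finset.sum_range_succ]
        have h4 : pv r = pq t (penV (k c r) (k c (r + 1))) := rfl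
        linarith
    have hlast : G.fl t c + pq t b0 + ∑ j ∈ Finset.range (G.top c - 1), pv j +
        ∑ j ∈ Finset.range (G.top c), 2 * HY t (k c j) + pq t b1 ≤ G.ce t c := by
      have h1 := hch (G.top c - 1) (by omega)
      have h2 := a4 (G.top c - 1) (by omega)
      rw [Finset.sum_add_distrib] at h1
      have h3 : ∑ j ∈ Finset.range (G.top c), 2 * HY t (k c j) =
          ∑ j ∈ Finset.range (G.top c - 1), 2 * HY t (k c j) +
            2 * HY t (k c (G.top c - 1)) := by
        rw [← Finset.sum_range_succ, Nat.sub_add_cancel htop]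
      linarith
    -- the nominal heights
    have hnh : ∀ j ∈ Finset.range (G.top c), G.nh t c j - 2 * HY t (k c j) ≤ 2 * t ^ 4 := by
      intro j hj
      have hp := hpres j (Finset.mem_range.mp hj)
      have h4 := hR4 t G g k L kL hOK hS hA c j hp
      have hDj := hD c j
      have ht4 : 0 < t ^ 4 := by positivity
      unfold Lay.nh HY hh
      by_cases hs : G.spc c j = true
      · rw [hs] at h4
        have h5 : k c j % 2 = 1 := by simpa using h4
        rw [if_pos hs, if_neg (by omega)]
        have h6 : t ^ 2 / 2 ≤ 1 / 4 := by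
          have : t ≤ 1 / 4 := ht1.trans (by norm_num)
          nlinarith
        have h7 : G.D t c j ≤ 1 / 4 := hDj.2.1.trans (by
          have : t ≤ 1 / 4 := ht1.trans (by norm_num)
          linarith)
        have h8 : |(G.sg c : ℝ)| = 1 := by
          unfold Lay.sg
          split_ifs <;> simp
        have h9 : (G.sg c : ℝ) * (t ^ 4 * (G.D t c j + t ^ 2 / 2)) ≤ t ^ 4 := by
          have h10 : |(G.sg c : ℝ) * (t ^ 4 * (G.D t c j + t ^ 2 / 2))| ≤ t ^ 4 := by
            rw [abs_mul, h8, one_mul, abs_of_nonneg (by
              have := hDj.1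
              positivity)]
            have : G.D t c j + t ^ 2 / 2 ≤ 1 := by linarith
            calc t ^ 4 * (G.D t c j + t ^ 2 / 2) ≤ t ^ 4 * 1 :=
                  mul_le_mul_of_nonneg_left this ht4.le
              _ = t ^ 4 := mul_one _
          exact (le_abs_self _).trans h10
        linarith
      · have hs' : G.spc c j = false := by simpa using hs
        rw [hs'] at h4
        have h5 : k c j % 2 = 0 := by
          have : ¬ (k c j % 2 = 1) := by simpa using h4
          omega
        rw [if_neg hs, if_pos h5]
        have : 0 ≤ 2 * t ^ 4 := by positivity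
        linarith
    have hsumnh : ∑ j ∈ Finset.range (G.top c), G.nh t c j -
        ∑ j ∈ Finset.range (G.top c), 2 * HY t (k c j) ≤ (G.top c : ℝ) * (2 * t ^ 4) := by
      rw [← Finset.sum_sub_distrib]
      refine (Finset.sum_le_sum hnh).trans ?_
      rw [Finset.sum_const, Finset.card_range, nsmul_eq_mul]
    have hNtop : G.N ≤ G.top c := by
      unfold Lay.top
      omega
    have hce : G.ce t c - G.fl t c ≤ ∑ j ∈ Finset.range (G.top c), G.nh t c j + t ^ 4 := by
      unfold Lay.ce Lay.fl
      have h1 : ∑ j ∈ Finset.range (G.top c), G.nh t c j =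
          ∑ j ∈ Finset.range G.N, G.nh t c j + ∑ j ∈ Finset.Ico G.N (G.top c), G.nh t c j :=
        (Finset.sum_range_add_sum_Ico _ hNtop).symm
      have h2 : (if (G.kd c).isL || (G.kd c).isR then t ^ 4 else ((G.kd c).off : ℝ) * t ^ 8) ≤
          t ^ 4 := by
        split_ifs
        · exact le_refl _
        · have h3 : ((G.kd c).off : ℝ) ≤ 1 := by exact_mod_cast (hOK.off c).2
          have h4 : t ^ 8 ≤ t ^ 4 :=
            pow_le_pow_of_le_one ht0.le (ht1.trans (by norm_num)) (by norm_num)
          have h5 : 0 < t ^ 8 := by positivity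
          calc ((G.kd c).off : ℝ) * t ^ 8 ≤ 1 * t ^ 8 := mul_le_mul_of_nonneg_right h3 h5.le
            _ ≤ t ^ 4 := by linarith
      rw [h1]
      linarith
    -- the total penalty is less than `t ^ 3`
    have htopK : (G.top c : ℝ) ≤ G.K := by exact_mod_cast top_le_K G hc
    have hslack : (G.top c : ℝ) * (2 * t ^ 4) + t ^ 4 < t ^ 3 := by
      have h1 : (G.top c : ℝ) * t ≤ 1 / 2 ^ 100 :=
        (mul_le_mul_of_nonneg_right htopK ht0.le).trans hKt
      have h2 : (G.top c : ℝ) * (2 * t) + t < 1 := by
        have h3 : t ≤ 1 / 4 := ht1.trans (by norm_num)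
        have h4 : (1 : ℝ) / 2 ^ 100 ≤ 1 / 4 := by norm_num
        linarith
      have h5 : 0 < t ^ 3 := by positivity
      calc (G.top c : ℝ) * (2 * t ^ 4) + t ^ 4 = ((G.top c : ℝ) * (2 * t) + t) * t ^ 3 := by ring
        _ < 1 * t ^ 3 := mul_lt_mul_of_pos_right h2 h5
        _ = t ^ 3 := one_mul _
    have hS0 : 0 ≤ ∑ j ∈ Finset.range (G.top c - 1), pv j :=
      Finset.sum_nonneg fun j _ => hpv0 j
    have hb00 := pq_nonneg ht0 b0
    have hb10 := pq_nonneg ht0 b1
    have htot : pq t b0 + ∑ j ∈ Finset.range (G.top c - 1), pv j + pq t b1 < t ^ 3 := by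
      linarith
    refine ⟨pq_lt (t := t) (by linarith), ?_, pq_lt (t := t) (by linarith)⟩
    intro r hr
    have h1 : pv r ≤ ∑ j ∈ Finset.range (G.top c - 1), pv j :=
      Finset.single_le_sum (f := pv) (fun j _ => hpv0 j) (Finset.mem_range.mpr (by omega))
    exact pq_lt (t := t) (by
      have : pv r = pq t (penV (k c r) (k c (r + 1))) := rfl
      rw [← this]
      linarith)
  -- adjacent tiles are not both special
  have hadj : ∀ c r, G.pres c r = true → G.pres c (r + 1) = true →
      ¬ (k c r % 2 = 1 ∧ k c (r + 1) % 2 = 1) := by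
    rintro c r h1 h2 ⟨h3, h4⟩
    have h5 := hR4 t G g k L kL hOK hS hA c r h1
    have h6 := hR4 t G g k L kL hOK hS hA c (r + 1) h2
    rw [decide_eq_true h3] at h5
    rw [decide_eq_true h4] at h6
    have h7 := spc_odd G c r h5.symm
    have h8 := spc_odd G c (r + 1) h6.symm
    omega
  intro c r hpr
  have hc : c < G.M ∧ r < G.top c := by
    simpa [Lay.pres] using hpr
  obtain ⟨m1, m2, m3⟩ := hmain c hc.1
  have hpres : ∀ r, r < G.top c → G.pres c r = true := by
    intro r hr
    simp [Lay.pres, hc.1, hr]
  have hpar := hR4 t G g k L kL hOK hS hA c r hpr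
  have hori : ∀ e : ℕ, (G.kd c).isW = false ∧ e = 0 ∨ (G.kd c).isW = true ∧ e = 2 →
      e ≤ k c r → k c r ≤ e + 1 → k c r = G.ori c r := by
    intro e he h1 h2
    unfold Lay.ori
    have he' : (if (G.kd c).isW = true then 2 else 0) = e := by
      rcases he with ⟨h, rfl⟩ | ⟨h, rfl⟩ <;> simp [h]
    have hev : e % 2 = 0 := by
      rcases he with ⟨_, rfl⟩ | ⟨_, rfl⟩ <;> rfl
    rw [he', ← hpar]
    by_cases h3 : k c r % 2 = 1
    · rw [if_pos (decide_eq_true h3)]
      omega
    · rw [if_neg (by simpa using h3)]
      omega
  by_cases hW : (G.kd c).isW = true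
  · -- downwards
    have hk : ∀ i, i < G.top c → 2 ≤ k c (G.top c - 1 - i) := by
      intro i
      induction i with
      | zero =>
        intro _
        rw [hW] at m3
        simp only [Bool.true_and, decide_eq_false_iff_not, not_le] at m3
        exact m3
      | succ i ih =>
        intro hi
        have h1 := ih (by omega)
        set r' := G.top c - 1 - (i + 1) with hr'
        have h2 : G.top c - 1 - i = r' + 1 := by omega
        rw [h2] at h1
        have h3 := m2 r' (by omega)
        have h4 := hk4 c r' (hpres r' (by omega))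
        have h5 := hk4 c (r' + 1) (hpres (r' + 1) (by omega))
        have h6 := hadj c r' (hpres r' (by omega)) (hpres (r' + 1) (by omega))
        by_contra hcon
        push Not at hcon
        generalize k c r' = a at *
        generalize k c (r' + 1) = b at *
        interval_cases a <;> interval_cases b <;> simp_all [penV]
    have h1 := hk (G.top c - 1 - r) (by omega)
    have h2 : G.top c - 1 - (G.top c - 1 - r) = r := by omega
    rw [h2] at h1
    have h3 := hk4 c r hpr
    exact hori 2 (Or.inr ⟨hW, rfl⟩) h1 (by omega)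
  · -- upwards
    have hW' : (G.kd c).isW = false := by simpa using hW
    have hk : ∀ i, i < G.top c → k c i ≤ 1 := by
      intro i
      induction i with
      | zero =>
        intro _
        rw [hW'] at m1
        simp only [Bool.not_false, Bool.true_and, decide_eq_false_iff_not, not_le] at m1
        omega
      | succ i ih =>
        intro hi
        have h1 := ih (by omega)
        have h3 := m2 i hi
        have h5 := hk4 c (i + 1) (hpres (i + 1) hi)
        have h6 := hadj c i (hpres i (by omega)) (hpres (i + 1) hi)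
        by_contra hcon
        push Not at hcon
        generalize k c i = a at *
        generalize k c (i + 1) = b at *
        interval_cases a <;> interval_cases b <;> simp_all [penV]
    have h1 := hk r hc.2
    exact hori 0 (Or.inl ⟨hW', rfl⟩) (Nat.zero_le _) (by omega)

end Pool.Agent.Helper2_Pak.H27
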